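import Pool.Agent.P.MP_9167e9_an.Fg.Main

open scoped ENNReal

namespace Pool.Agent.Results.MP_9167e9_an.NotSurjectiveFG

open Pool.Agent.P.MP_9167e9_an

/-- For every finite `p ≥ 10^6` there is a finitely generated discrete group `G` for which the
canonical map `K_0(B^{p,*}_r(G)) → K_0(B^p_r(G))` is not surjective. -/
theorem result : ∀ (p : ℝ≥0∞) [Fact (1 ≤ p)], 1000000 ≤ p → p ≠ ∞ →
    ∃ (G : Type) (_ : Group G), Group.FG G ∧ ¬ Function.Surjective (K0.map (canon G p)) :=
  fun p _ hp hne => Fg.part p hp hne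

end Pool.Agent.Results.MP_9167e9_an.NotSurjectiveFG
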